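import Pool.Agent.Run7.h902.CtBass

/-!
# MP_e17fa799_al: Bass's conjecture in fixed degree and dimension, and moduli spaces of configurations
of points

`KThy` (starting files) lists the properties of Quillen's groups `K'_n(X)` of schemes of finite type over
`ℤ` which are used.

`FrameModuli ℤ A`: `Spec A` is a moduli space over `ℤ` of configurations of points in the projective plane:
the points `(1:0:0)`, `(0:1:0)`, `(0:0:1)`, `(1:1:1)` and finitely many points moving in given Schubert cells
`(1:x:y)`, `(0:1:y)`, `(0:0:1)`, such that every triple of points is prescribed to be collinear
or not collinear: the realization space over `ℤ` of a matroid of rank `3` modulo `PGL_3`. `SmoothZ A`: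
smooth over `ℤ` or over a prime field.

Theorem: (1) For all `n` and `d` the following are equivalent: `K'_n(X)` is finitely generated for all
regular schemes `X` of dimension at most `d`; the same for all (singular) schemes of dimension at most
`d`; the same for the integral realization spaces of dimension at most `d`, smooth over `ℤ` or a prime
field. (2) For every infinite set `S` of degrees Bass's conjecture is equivalent to finite generation of
`K'_n`, `n ∈ S`, of these realization spaces.

Proof. Finite generation of a single group `K'_n` passes from a closed part and the open complement to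
the scheme; and every integral scheme of finite type over `ℤ` has a dense open subscheme which is
ISOMORPHIC to such a realization space (an exact form of the universality theorem of Mnev over `ℤ`,
proved in `CuRing`, `CuGad`, `CuMain`).
-/

set_option autoImplicit false

open CategoryTheory AlgebraicGeometry Pool.Agent.Run7.h902 Pool.Agent.R904.CU Pool.Agent.R904.TR

namespace Pool.Agent.Results.MP_e17fa799_al.ConfigurationSpaces

/-- **Theorem.** (1) For all `n` and `d` finite generation of `K'_n(X)` for all regular schemes `X` of finite
type over `ℤ` of dimension at most `d`, for all schemes of dimension at most `d`, and for the integral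
moduli spaces of configurations of dimension at most `d` which are smooth over `ℤ` or a prime field are
equivalent. (2) Bass's conjecture is equivalent to finite generation of `K'_n` of these moduli spaces
for the `n` in any infinite set. -/
theorem result (K : KThy) :
    (∀ n d : ℕ, List.TFAE [
      ∀ (X : Scheme.{0}) (f : X ⟶ Spec (.of ℤ)), FinType ℤ X f → IsRegularScheme X →
        topologicalKrullDim X ≤ d → AddGroup.FG (K.G n X),
      ∀ (X : Scheme.{0}) (f : X ⟶ Spec (.of ℤ)), FinType ℤ X f →
        topologicalKrullDim X ≤ d → AddGroup.FG (K.G n X),
      ∀ (A : Type) [CommRing A] [Algebra ℤ A] [Algebra.FiniteType ℤ A], IsDomain A →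
        Cu.SmoothZ A → Cx.FrameModuli ℤ A → ringKrullDim A ≤ d →
          AddGroup.FG (K.G n (Spec (.of A)))]) ∧
    ∀ S : Set ℕ, S.Infinite → (K.Bass ↔
      ∀ n ∈ S, ∀ (A : Type) [CommRing A] [Algebra ℤ A] [Algebra.FiniteType ℤ A], IsDomain A →
        Cu.SmoothZ A → Cx.FrameModuli ℤ A → AddGroup.FG (K.G n (Spec (.of A)))) :=
  ⟨Ct.bass_dim K, Ct.bass_all K⟩

end Pool.Agent.Results.MP_e17fa799_al.ConfigurationSpaces
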