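import Mathlib
import Pool.Agent.Run7.h8.IC.Red
import Pool.Agent.Run7.h8.IC.WConv

/-!
# Rational K-groups of schemes generated by abelian varieties over finite fields with Weil numbers
in CM fields with isolated cycles of automorphisms

Over an algebraic closure of the field with `p` elements each abelian variety is isogenous to the
reduction of an abelian variety of CM type (Honda, Tate). So an abelian variety over the field
with `p ^ b` elements is modelled by `RedAV`: a finite product of CM types `(E l, Φ l)` with Weil
numbers in `E l` (the Frobenius endomorphism) that satisfy the formula of Shimura and Taniyama;
its cohomology of degree `n`, with coefficients in an algebraically closed field `Ω`, consists of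
the alternating `n`-forms on `Ω ⊗ H_1`, on which the Frobenius endomorphism acts by the Weil
numbers.

Let `π i` be finitely many Weil numbers as below, and let `𝒞` (`PowersOf π`) be the class of the
abelian varieties `Y` over finite fields of characteristic `p` each of whose factors is
supersingular or has a Frobenius endomorphism some power of which is a power of `π i` for some
`i`. So `Y` is, over an algebraic closure, isogenous to a product of powers of the simple abelian
varieties `A i` of the Weil numbers `π i` (of any exponents) and of a supersingular abelian
variety; the class contains all products of powers of its members.

`Homology Ω V` are data of motivic homology `M X i j = H_i^M(X, ℚ(j)) = CH_j(X, i - 2 j) ⊗ ℚ` and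
of `ℓ`-adic homology `E X i j = H_i(X, ℚ_ℓ(j))` (coefficients extended to `Ω`) of schemes `X` of
finite type over a finite field (the elements of `V`), with the Frobenius and the regulator. Let
`𝒢` be the smallest class (`Generated`) of such schemes that contains those with the homology
groups of abelian varieties in `𝒞` (`IsAbelianPowersOf`), that is closed under direct summands of
finite sums of twists of motives, and that contains all of a closed subscheme `Z` of `X`, `X` and
`X ∖ Z` if it contains two of them. It contains for instance all products of varieties in `𝒞`,
all products of curves with Jacobians in `𝒞` and of open subsets of such curves, symmetric powers
of them, and the singular and the open varieties with a stratification by such varieties.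

The Weil numbers. Let `π i` be Weil numbers for `q = p ^ a` (algebraic integers with `π i * conj
(π i) = q`) in CM fields `K i`, finitely many. For a CM subfield `T` of `K i` let `unitNorm` be
the norm `N` of `π i` to `T`, normalised to absolute value one: `N ^ 2 / p ^ (a [K i : T])`. The
slopes of the `π i` are arbitrary. There are two assumptions.

* (`NormsSeparated`) Different embeddings of CM subfields `T i`, `T i'` of the fields (equal subfields
  if `i = i'`) never map positive powers of these numbers to the same complex number. For one
  Weil number `π` in `K` this is equivalent to `NormsGenerate`: for all CM subfields `T` of `K`,
  all positive powers of the normalised norm to `T` generate the field `T`. This condition is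
  necessary: exotic classes (for instance of Weil type) come from norms some powers of which lie
  in smaller fields.
* (`AllCyclic`) For every family of CM subfields `T i` of the `K i`, `i ∈ S ≠ ∅`, some automorphism
  `τ` of `ℂ` has an *isolated cycle* on the complex embeddings of the `T i` (`Isolated`):
  for one embedding `ψ` the cycle of `ψ` under `τ` has `n > 1` elements, where `n` is any power
  of any prime number (or `n = 2 ^ a r ^ b`, `a > 0`, `r` an odd prime number, and the cycle is
  stable under complex conjugation), and `n` does not divide the length of any other cycle,
  except for that of the complex conjugate of `ψ`. By the theorem of Chebotarev this is a
  condition on the decomposition of prime numbers: some prime number, unramified in the `T i`,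
  has exactly one prime ideal, or one pair of complex conjugate prime ideals, in the fields `T i`
  whose residue degree is divisible by `n`, and this residue degree is `n`. Alternatively the
  family may have one of the properties of the starting files: some prime number divides one of
  the discriminants of the `T i`, but its third power does not divide their product; or some
  automorphism of `ℂ` moves at least one and at most four embeddings; and for norms with only two
  slopes `third power` and `four` may be replaced by `fourth power` and `six`.

An example (second part of the theorem, `IsPrimePower`), in which the condition on the CM
subfields is not a hypothesis any more: `K` is **any** CM field of degree `2 r ^ k`, `r` a prime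
number, such that some automorphism of `ℂ` acts on the pairs of complex conjugate embeddings of
`K` as one cycle (`OneOrbit`; for instance some prime number is inert in the maximal real
subfield of `K`, or is totally ramified there and does not divide the degree). `K` may have many
CM subfields. Then the conclusion is true for every Weil number `π` in `K` with `NormsGenerate`,
and arbitrary slopes. So for abelian varieties of prime power dimension with such a Frobenius
element exotic classes can only be explained by norms to CM subfields. (For `k = 1`, prime
dimension, an automorphism as in `OneOrbit` always exists, and the result is similar to theorems
of Tankeev and Zarhin.)

The conclusion (`BassFinite`). **For all schemes `X` in `𝒢`, regular or not, and all `n` the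
rational `K`-group `K'_n(X) ⊗ ℚ` is finite-dimensional.** The theorem uses that `K = K'_n(X) ⊗ ℚ`
embeds into the product of the higher Chow groups `CH_j(X, n) ⊗ ℚ` (Bloch), and that `H_i(X,
ℚ_ℓ(j))` is the dual of the cohomology with compact support (`IsCompactCoh`), which gives that
only finitely many `j` matter.

Properties of the theory of cycles that are used for the abelian varieties (`IsChow`,
`IsMotivic`): Poincaré duality, the formal properties of correspondences, the nilpotence of
homologically trivial correspondences (Kimura), the operation of the Frobenius endomorphism on
higher Chow groups, the vanishing of the higher rational `K`-groups of a finite field (Quillen),
and the algebraicity of the classes in `Alg` (of which only products of classes of divisors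
matter here, theorem of Tate). The passage from the Tate conjecture to all degrees and to the
class `Generated` is due to Soulé, Geisser, Kahn and Jannsen; it was formalized in the starting
files (W495, TH117). The classes `PowersOf` and `IsAbelianPowersOf` and the deduction of the
conclusion from the elementary relations are those of helper479 (Run7/h479/SO).

The starting files (MP_021685_ag OneFrobenius, MP_0fca13_ag TateRingOfPowers) have the criterion
for families of CM subfields with the alternative properties in `AllCyclic`, and with automorphisms
which act on the pairs of conjugate embeddings as one cycle of odd *prime* length and *fix all
other embeddings*. New is that the length can be any prime power, including powers of two, or `2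
^ a r ^ b`, and that the other embeddings can move, as long as the lengths of their cycles are
not divisible by `n`; so the second part of the theorem is new for all `k > 1`. The reduction to
the slopes and the descent to the CM subfields are those of the starting files
(`Pool.Agent.W527`).

The proof. A multiplicative relation between the conjugates of the `π i` gives an odd function
`c` on the embeddings of a family of CM subfields, as small as possible, such that `∑ c (z) w (g
z) = 0` for all automorphisms `g`, where `w` is the function given by the slopes of the norms. We
apply this to `g τ ^ j`, multiply by `ζ ^ (-j)`, where `ζ` is a primitive `n`-th root of unity,
and sum over `j`. The cycles whose length is not divisible by `n` do not contribute. So for all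
automorphisms `h`, `g` the product of `∑ c (h τ ^ i ψ) ζ ^ i` and of `∑ w (g τ ^ j ψ) ζ ^ (-j)`
is zero. If the first sum is zero for all `h`, then the irreducibility of the cyclotomic
polynomial gives `c (h ψ) = c (h τ ^ (n / r) ψ)` for all `h`, so that `c` comes from smaller CM
subfields, a contradiction. If not, then in the same way `w (g ψ) = w (g τ ^ (n / r) ψ)` for all
`g`, which contradicts `NormsSeparated`. So the angle rank is maximal: the only multiplicative
relations are those given by `π i * conj (π i) = q`.
-/

set_option autoImplicit false

namespace Pool.Agent.Results.MP_e17fa799_al.IsolatedCycles

open Run7.h8.IC Run7.h8.IC.W

/-- **The rational K-groups of all schemes generated by abelian varieties over finite fields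
with Weil numbers in CM fields with isolated cycles are finite-dimensional.** -/
theorem result (p : ℕ) [Fact p.Prime] (a : ℕ) (ha : 0 < a) :
    (∀ (I : Type) [Fintype I] (W : I → WeilNum p a), AllCyclic W → NormsSeparated W →
      SchemesFor p (fun i => (W i).K) (fun i => (W i).π) fun _ _ _ T X => BassFinite T X) ∧
    ∀ W : WeilNum p a, IsPrimePower W →
      SchemesFor p (fun _ : Unit => W.K) (fun _ => W.π) fun _ _ _ T X => BassFinite T X :=
  ⟨fun _ _ W h1 h2 => forFamily _ (holdsForCyclic bassFor) ha W h1 h2,
    fun W h => forOne _ (holdsForCyclic bassFor) ha W h⟩

end Pool.Agent.Results.MP_e17fa799_al.IsolatedCycles
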