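import Pool.Agent.R904.TR.Res
import Pool.Agent.Run7.h798.UV.Graded

/-!
# MP_e17fa799_al: Bass's finite generation conjecture, sparse cubic rings and large degrees

`KThy` (from the starting files) lists the properties of Quillen's groups `K'_n(X)` of schemes of finite
type over `ℤ` which are used: localization, homotopy invariance for the affine bundles of Jouanolou, the
fundamental theorem, and finite generation in dimension at most one (Quillen, Harder).
-/

set_option autoImplicit false

open CategoryTheory AlgebraicGeometry MvPolynomial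
open Pool.Agent.R904.CU Pool.Agent.R904.TR Pool.Agent.Y116.UV Run7.h798.UV

namespace Pool.Agent.Results.MP_e17fa799_al.SparseCubics

/-- The groups `K'_n(X)` are finitely generated for all `n ≥ -N`. -/
def FinFrom (K : KThy) (N : ℤ) (X : Sch ℤ) : Prop := ∀ n : ℕ, -N ≤ n → AddGroup.FG (K.G n X.left)

lemma funi (K : KThy) : FUni False (FinFrom K) where
  mono N X _ h n hn := h n (by omega)
  iso {X Y} _ e N hX n hn := by
    obtain ⟨e⟩ := e
    exact fg_equiv (K.iso n _ _ ((Over.forget _).mapIso e)) (hX n hn)
  total {Z X U} i j h ht N hZ hU n hn := by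
    obtain ⟨a, b, d, h1, h2, h3, -⟩ := K.localization X.left Z.left U.left _ i.left j.left
      (ft_int h) ht.closed ht.opened ht.compl
    exact fg_exact (a n) (b n) (h1 n) (hZ n (by omega)) (hU n (by omega))
  opened {Z X U} i j h ht N hZ hX n hn := by
    obtain ⟨a, b, d, h1, h2, h3, h4⟩ := K.localization X.left Z.left U.left _ i.left j.left
      (ft_int h) ht.closed ht.opened ht.compl
    cases n with
    | zero =>
      have := hX 0 (by omega)
      exact AddGroup.fg_of_surjective h4
    | succ n =>
      refine fg_exact (b (n + 1)) (d n) (h2 n) (hX (n + 1) (by omega)) (hZ n ?_)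
      push_cast at hn
      omega
  torus A _ _ _ N h n hn := by
    have := ft_trans (R := ℤ) A
    obtain ⟨e⟩ := K.laurent n A
    have h1 : AddGroup.FG (K.G (n + 1) (Spec (.of (LaurentPolynomial A)))) :=
      h (n + 1) (by push_cast; omega)
    refine AddGroup.fg_of_surjective (f := (AddMonoidHom.snd (K.G (n + 1) (Spec (.of A)))
      (K.G n (Spec (.of A)))).comp e.toAddMonoidHom) (fun y => ⟨e.symm (0, y), ?_⟩)
    change (e (e.symm (0, y))).2 = y
    rw [e.apply_symm_apply]
  closed {Z X U} i j h ht N hX hU n hn := by
    obtain ⟨a, b, d, h1, h2, h3, -⟩ := K.localization X.left Z.left U.left _ i.left j.left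
      (ft_int h) ht.closed ht.opened ht.compl
    exact fg_exact (d n) (a n) (h3 n) (hU (n + 1) (by push_cast; omega)) (hX n hn)
  space m N n _ := by
    have h1 := K.bundle n ℤ (m + 1) (f1 ℤ m) (Spec (.of ℤ)) (𝟙 _) ⟨inferInstance, range_id m⟩
    have h2 := fg_equiv h1 (fin_dim_one K ℤ dim_int n)
    exact fg_equiv (K.iso n _ _ ((Over.forget _).mapIso (affIso (jouOne ℤ m)).symm)) h2
  jouanolou A _ _ _ m f U j hj hr N h n hn := by
    have := ft_trans (R := ℤ) A
    obtain ⟨e⟩ := K.bundle n A m f U.left j.left ⟨hj, hr⟩
    exact fg_equiv ⟨e.symm⟩ (h n hn)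

lemma regular_trip {a b c : ℕ} (H : Finset (Fin a × Fin b × Fin c)) :
    IsRegularScheme (tripS ℤ H).left := by
  have h := regular_hyp (R := ℤ) fun i j k => if (i, j, k) ∈ H then (1 : ℤ) else 0
  unfold tripS Trip
  rw [← tri_ind]
  exact h

/-- **Theorem.** Let `N` be any natural number. Bass's conjecture (all groups `K'_n(X)`, `n ≥ 0`, of all
regular schemes `X` of finite type over `ℤ` are finitely generated) is true if and only if the groups `K_n`
of the regular rings `ℤ[x, y, z] / (∑_{(i, j, l) ∈ H} x_i y_j z_l - 1)` are finitely generated for all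
`n ≥ N` and all finite sets `H` of triples such that every variable `x_i` occurs in at most three
terms. -/
theorem result (K : KThy) (N : ℕ) :
    K.Bass ↔ ∀ (a b c : ℕ) (H : Finset (Fin a × Fin b × Fin c)),
      (∀ l : Fin a, (H.filter fun h => h.1 = l).card ≤ 3) → ∀ n ≥ N,
        AddGroup.FG (K.G n (tripS ℤ H).left) := by
  have hR : Function.Surjective (Int.cast : ℤ → ℤ) := fun x => ⟨x, rfl⟩
  constructor
  · intro h a b c H _ n _
    exact h _ _ (ft_int (ft_aff False : FT False (tripS ℤ H))) (regular_trip H) n
  · intro h X f hf _ n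
    have hX : FT False (Over.mk f : Sch ℤ) := ⟨hf.1, hf.2, fun h => h.elim⟩
    have h1 := (filtered_deg_iff hR (funi K) (-N)).mpr (fun a b c H hH n hn =>
      h a b c H hH n (by rw [neg_neg] at hn; exact_mod_cast hn)) _ hX (-n)
    exact h1 n (by rw [neg_neg])

end Pool.Agent.Results.MP_e17fa799_al.SparseCubics
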